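import Pool.Agent.helper30.QP.SpecK

/-!
# Row INT of SpecK: denominators of modular functions
-/

set_option autoImplicit false

open Polynomial Pool.Agent.helper7.IG

noncomputable section

namespace Pool.Agent.QP

open scoped IntermediateField.algebraAdjoinAdjoin in
/-- Clearing denominators. -/
lemma INT_alg {F : LL} (hF : F ∈ MM) : IsAlgebraic (Algebra.adjoin kk {DDk}) F := by
  rw [mem_MM] at hF
  exact (IsFractionRing.isAlgebraic_iff (Algebra.adjoin kk {DDk})
    (IntermediateField.adjoin kk {DDk}) LL).mpr hF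

lemma INT_mem (x z : LL) (hz : z ∈ Algebra.adjoin kk {x}) : ∃ b : Polynomial kk, aeval x b = z := by
  rw [Algebra.adjoin_singleton_eq_range_aeval] at hz
  obtain ⟨b, hb⟩ := hz
  exact ⟨b, hb⟩

/-- A polynomial relation with coefficients in `kk[D]`. -/
lemma INT_rel {F : LL} (hF : F ∈ MM) : ∃ (a : ℕ → Polynomial kk) (k : ℕ), 1 ≤ k ∧ a k ≠ 0 ∧
    ∑ i ∈ Finset.range (k + 1), aeval DDk (a i) * F ^ i = 0 := by
  obtain ⟨p, hp0, hp⟩ := INT_alg hF
  have hc : ∀ i, ∃ b : Polynomial kk, aeval DDk b = ((p.coeff i : Algebra.adjoin kk {DDk}) : LL) := by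
    intro i
    exact INT_mem DDk _ (p.coeff i).2
  choose a ha using hc
  have hlead : (p.coeff p.natDegree : Algebra.adjoin kk {DDk}) ≠ 0 := by
    rw [Polynomial.coeff_natDegree]
    exact Polynomial.leadingCoeff_ne_zero.mpr hp0
  refine ⟨a, p.natDegree, ?_, ?_, ?_⟩
  · by_contra hk
    have hk0 : p.natDegree = 0 := by omega
    have h1 : p = C (p.coeff 0) := Polynomial.eq_C_of_natDegree_eq_zero hk0
    rw [h1, Polynomial.aeval_C] at hp
    apply hlead
    rw [hk0]
    have h2 : (((p.coeff 0 : Algebra.adjoin kk {DDk})) : LL) = 0 := hp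
    exact_mod_cast h2
  · intro h0
    apply hlead
    have h1 := ha p.natDegree
    rw [h0, map_zero] at h1
    exact_mod_cast h1.symm
  · rw [Polynomial.aeval_eq_sum_range] at hp
    rw [← hp]
    refine Finset.sum_congr rfl fun i _ => ?_
    rw [ha i, Algebra.smul_def]
    rfl

/-- The monic equation. -/
lemma INT_eq (x f : LL) (a : ℕ → Polynomial kk) (k : ℕ) (hk : 1 ≤ k)
    (h : ∑ i ∈ Finset.range (k + 1), aeval x (a i) * f ^ i = 0) :
    (aeval x (a k) * f) ^ k + ∑ i ∈ Finset.range k,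
      aeval x (a i * a k ^ (k - 1 - i)) * (aeval x (a k) * f) ^ i = 0 := by
  have h1 : aeval x (a k) ^ (k - 1) *
      ∑ i ∈ Finset.range (k + 1), aeval x (a i) * f ^ i = 0 := by rw [h, mul_zero]
  rw [Finset.sum_range_succ, mul_add, Finset.mul_sum] at h1
  rw [← h1, add_comm]
  refine congrArg₂ (· + ·) (Finset.sum_congr rfl fun i hi => ?_) ?_
  · have hi' := Finset.mem_range.mp hi
    have h2 : aeval x (a k) ^ (k - 1) = aeval x (a k) ^ (k - 1 - i) * aeval x (a k) ^ i := by
      rw [← pow_add]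
      congr 1
      omega
    rw [map_mul, map_pow, mul_pow, h2]
    ring
  · obtain ⟨j, rfl⟩ : ∃ j, k = j + 1 := ⟨k - 1, by omega⟩
    rw [Nat.add_sub_cancel]
    ring

/-- First claim. -/
lemma INT_int (x f : LL) (a : ℕ → Polynomial kk) (k : ℕ) (hk : 1 ≤ k)
    (h : ∑ i ∈ Finset.range (k + 1), aeval x (a i) * f ^ i = 0) :
    IsIntegral (Algebra.adjoin kk {x}) (aeval x (a k) * f) := by
  have h1 := INT_eq x f a k hk h
  have hmem : ∀ b : Polynomial kk, aeval x b ∈ Algebra.adjoin kk {x} := by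
    intro b
    rw [Algebra.adjoin_singleton_eq_range_aeval]
    exact ⟨b, rfl⟩
  set q : Polynomial (Algebra.adjoin kk {x}) := ∑ i ∈ Finset.range k,
    C (⟨aeval x (a i * a k ^ (k - 1 - i)), hmem _⟩ : Algebra.adjoin kk {x}) * X ^ i with hq
  have hdeg : q.degree < k := by
    rw [hq]
    rw [← Polynomial.mem_degreeLT]
    refine Submodule.sum_mem _ fun i hi => ?_
    rw [Polynomial.mem_degreeLT]
    refine lt_of_le_of_lt (Polynomial.degree_C_mul_X_pow_le _ _) ?_
    exact_mod_cast Finset.mem_range.mp hi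
  refine ⟨X ^ k + q, Polynomial.monic_X_pow_add hdeg, ?_⟩
  rw [← Polynomial.aeval_def, map_add, map_pow, Polynomial.aeval_X, hq, map_sum]
  rw [← h1]
  refine congrArg₂ (· + ·) rfl (Finset.sum_congr rfl fun i _ => ?_)
  rw [map_mul, map_pow, Polynomial.aeval_X, Polynomial.aeval_C]
  rfl

/-- The value of a polynomial. -/
lemma INT_val (V : ValuationSubring LL) (G : V.ValueGroup) (x : LL)
    (hc : ∀ c : kk, algebraMap kk LL c ∈ V) (hG : 1 ≤ G) (hx : V.valuation x ≤ G)
    (b : Polynomial kk) (m : ℕ) (hm : b.natDegree ≤ m) : V.valuation (aeval x b) ≤ G ^ m := by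
  rw [Polynomial.aeval_eq_sum_range]
  refine Valuation.map_sum_le _ fun i hi => ?_
  have hi' := Finset.mem_range.mp hi
  rw [Algebra.smul_def, map_mul, map_pow]
  have h1 : V.valuation (algebraMap kk LL (b.coeff i)) ≤ 1 :=
    (V.valuation_le_one_iff _).mpr (hc _)
  calc V.valuation (algebraMap kk LL (b.coeff i)) * V.valuation x ^ i
      ≤ 1 * G ^ i := mul_le_mul' h1 (pow_le_pow_left' hx i)
    _ = G ^ i := one_mul _
    _ ≤ G ^ m := pow_le_pow_right' hG (by omega)

/-- Second claim. -/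
lemma INT_bd (V : ValuationSubring LL) (G : V.ValueGroup) (x f : LL)
    (hc : ∀ c : kk, algebraMap kk LL c ∈ V) (hG : 1 ≤ G) (hx : V.valuation x ≤ G)
    (a : ℕ → Polynomial kk) (k M : ℕ) (hk : 1 ≤ k) (hM : ∀ i ∈ Finset.range (k + 1), (a i).natDegree ≤ M)
    (h : ∑ i ∈ Finset.range (k + 1), aeval x (a i) * f ^ i = 0) :
    V.valuation (aeval x (a k) * f) ≤ G ^ M := by
  by_contra hlt
  push Not at hlt
  have h1 := INT_eq x f a k hk h
  set Y : LL := aeval x (a k) * f with hY
  have hG0 : (0 : V.ValueGroup) < G := lt_of_lt_of_le zero_lt_one hG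
  have hY0 : 0 < V.valuation Y := lt_trans (pow_pos hG0 M) hlt
  have hQ : V.valuation (aeval x (a k)) ≤ G ^ M :=
    INT_val V G x hc hG hx _ _ (hM k (Finset.self_mem_range_succ k))
  have h2 : V.valuation (∑ i ∈ Finset.range k, aeval x (a i * a k ^ (k - 1 - i)) * Y ^ i) <
      V.valuation Y ^ k := by
    refine Valuation.map_sum_lt _ (pow_pos hY0 k).ne' fun i hi => ?_
    have hi' := Finset.mem_range.mp hi
    have h3 : V.valuation (aeval x (a i * a k ^ (k - 1 - i))) ≤ (G ^ M) ^ (k - i) := by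
      rw [map_mul, map_pow, map_mul, map_pow]
      have h4 : V.valuation (aeval x (a i)) ≤ G ^ M :=
        INT_val V G x hc hG hx _ _ (hM i (Finset.mem_range.mpr (by omega)))
      calc V.valuation (aeval x (a i)) * V.valuation (aeval x (a k)) ^ (k - 1 - i)
          ≤ G ^ M * (G ^ M) ^ (k - 1 - i) := mul_le_mul' h4 (pow_le_pow_left' hQ _)
        _ = (G ^ M) ^ (k - i) := by
          rw [← pow_succ']
          congr 1
          omega
    have h5 : (G ^ M) ^ (k - i) < V.valuation Y ^ (k - i) :=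
      pow_lt_pow_left₀ hlt zero_le (by omega)
    rw [map_mul, map_pow]
    calc V.valuation (aeval x (a i * a k ^ (k - 1 - i))) * V.valuation Y ^ i
        < V.valuation Y ^ (k - i) * V.valuation Y ^ i :=
          mul_lt_mul_of_pos_right (lt_of_le_of_lt h3 h5) (pow_pos hY0 i)
      _ = V.valuation Y ^ k := by
          rw [← pow_add]
          congr 1
          omega
  have h6 : Y ^ k = -(∑ i ∈ Finset.range k, aeval x (a i * a k ^ (k - 1 - i)) * Y ^ i) :=
    eq_neg_of_add_eq_zero_left h1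
  rw [← map_pow, h6, Valuation.map_neg] at h2
  exact lt_irrefl _ h2

theorem INT : INT_stmt := by
  intro F hF
  obtain ⟨a, k, hk, hak, h⟩ := INT_rel hF
  refine ⟨a k, (Finset.range (k + 1)).sup fun i => (a i).natDegree, hak, ?_, ?_⟩
  · intro v hv
    refine INT_int _ _ a k hk ?_
    have h1 := congrArg (sig v.1 v.2) h
    rw [map_zero, map_sum] at h1
    rw [← h1]
    refine Finset.sum_congr rfl fun i _ => ?_
    rw [map_mul, map_pow]
    exact congrArg (· * _) (Polynomial.aeval_algHom_apply (sig v.1 v.2) DDk (a i))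
  · intro V v G hv hc hG hx
    have hM : ∀ i ∈ Finset.range (k + 1), (a i).natDegree ≤
        (Finset.range (k + 1)).sup fun i => (a i).natDegree :=
      fun i hi => Finset.le_sup (f := fun i => (a i).natDegree) hi
    refine ⟨INT_val V G _ hc hG hx _ _ (hM k (Finset.self_mem_range_succ k)), ?_⟩
    refine INT_bd V G _ _ hc hG hx a k _ hk hM ?_
    have h1 := congrArg (sig v.1 v.2) h
    rw [map_zero, map_sum] at h1
    rw [← h1]
    refine Finset.sum_congr rfl fun i _ => ?_
    rw [map_mul, map_pow]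
    exact congrArg (· * _) (Polynomial.aeval_algHom_apply (sig v.1 v.2) DDk (a i))

end Pool.Agent.QP
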